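import Pool.Agent.Q287.DL.DL5

open Filter Topology MeasureTheory ProbabilityTheory

namespace Pool.Agent.Results.MP_db93e3_pr.EndTimeLittleO

open Q287.DL

/-- Question Q1 of MP_db93e3_pr: `t_end = o(2^n)` in probability. For every `n` let `ρ n t` (`t = 0,1,…`) be
independent uniformly random permutations of the `n` coordinates, on any probability space; then for every
`ε > 0`, `Pr(t_end > ε 2^n) → 0`. -/
theorem result (Ω : ℕ → Type) [∀ n, MeasurableSpace (Ω n)] (P : ∀ n, Measure (Ω n))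
    [∀ n, IsProbabilityMeasure (P n)] (ρ : ∀ n, ℕ → Ω n → Equiv.Perm (Fin n))
    (hmeas : ∀ n t, @Measurable _ _ _ ⊤ (ρ n t)) (hind : ∀ n, iIndepFun (m := fun _ => ⊤) (ρ n) (P n))
    (hunif : ∀ n t σ, P n {ω | ρ n t ω = σ} = 1 / (n.factorial : ENNReal)) (ε : ℝ) (hε : 0 < ε) :
    Tendsto (fun n => P n {ω | EndGt (fun t => ρ n t ω) (ε * 2 ^ n)}) atTop (𝓝 0) :=
  main Ω P ρ hmeas hind hunif ε hε

end Pool.Agent.Results.MP_db93e3_pr.EndTimeLittleO
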